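import Pool.Agent.V8H32.CU.Defs
import Pool.Agent.H691R3.PrimeSum

/-!
# The Frobenius divisor is unique
-/

set_option autoImplicit false

namespace Pool.Agent.V8H25.CU

open NumberField IsDedekindDomain Polynomial
open Pool.Agent.V8H32.CU Pool.Agent.V8H32.CF

variable {K : Type} [Field K] [NumberField K]

/-- extensions of the residue field of every degree -/
theorem exists_ext (v : HeightOneSpectrum (𝓞 K)) {e : ℕ} (he : 1 ≤ e) :
    ∃ (κ : Type) (_ : Field κ) (_ : Finite κ) (φ : 𝓞 K →+* κ), RingHom.ker φ = v.asIdeal ∧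
      Nat.card κ = nv v ^ e := by
  have : v.asIdeal.IsMaximal := v.isMaximal
  let _ : Field (𝓞 K ⧸ v.asIdeal) := Ideal.Quotient.field v.asIdeal
  have hfin : Finite (𝓞 K ⧸ v.asIdeal) := Ideal.finiteQuotientOfFreeOfNeBot v.asIdeal v.ne_bot
  obtain ⟨p, hc⟩ := CharP.exists (𝓞 K ⧸ v.asIdeal)
  have hp : Fact p.Prime := ⟨CharP.char_is_prime (𝓞 K ⧸ v.asIdeal) p⟩
  have he' : NeZero e := ⟨by omega⟩
  let _ : Algebra (ZMod p) (𝓞 K ⧸ v.asIdeal) := ZMod.algebra _ p
  refine ⟨FiniteField.Extension (𝓞 K ⧸ v.asIdeal) p e, inferInstance, inferInstance,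
    (algebraMap (𝓞 K ⧸ v.asIdeal) (FiniteField.Extension (𝓞 K ⧸ v.asIdeal) p e)).comp
      (Ideal.Quotient.mk v.asIdeal), ?_, ?_⟩
  · rw [RingHom.ker_comp_of_injective]
    · exact Ideal.mk_ker
    · exact RingHom.injective _
  · rw [FiniteField.natCard_extension]
    rfl

lemma coeff_zero_of_powers {F : Finset ℂ} {a : ℂ → ℂ} (h : ∀ e : ℕ, ∑ z ∈ F, a z * z ^ e = 0) :
    ∀ z ∈ F, a z = 0 := by
  classical
  intro w hw
  set P : ℂ[X] := ∏ z ∈ F.erase w, (X - C z) with hP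
  have h1 : ∑ z ∈ F, a z * P.eval z = 0 := by
    simp_rw [Polynomial.eval_eq_sum_range, Finset.mul_sum]
    rw [Finset.sum_comm]
    refine Finset.sum_eq_zero fun i _ => ?_
    have h2 : ∑ z ∈ F, a z * (P.coeff i * z ^ i) = P.coeff i * ∑ z ∈ F, a z * z ^ i := by
      rw [Finset.mul_sum]
      exact Finset.sum_congr rfl fun z _ => by ring
    rw [h2, h i, mul_zero]
  rw [Finset.sum_eq_single w] at h1
  · have h3 : P.eval w ≠ 0 := by
      rw [hP, Polynomial.eval_prod]
      refine Finset.prod_ne_zero_iff.2 fun z hz => ?_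
      rw [Polynomial.eval_sub, Polynomial.eval_X, Polynomial.eval_C]
      exact sub_ne_zero.2 (Finset.mem_erase.1 hz).1.symm
    exact (mul_eq_zero.1 h1).resolve_right h3
  · intro z hz hzw
    have h4 : P.eval z = 0 := by
      rw [hP, Polynomial.eval_prod]
      refine Finset.prod_eq_zero (Finset.mem_erase.2 ⟨hzw, hz⟩) ?_
      rw [Polynomial.eval_sub, Polynomial.eval_X, Polynomial.eval_C, sub_self]
    rw [h4, mul_zero]
  · exact fun h5 => absurd hw h5

/-- A finitely supported function on the nonzero complex numbers is determined by its power sums. -/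
theorem eq_of_powerSums {c c' : ℂ →₀ ℤ} (h0 : (0 : ℂ) ∉ c.support) (h0' : (0 : ℂ) ∉ c'.support)
    (h : ∀ e : ℕ, 1 ≤ e → c.sum (fun z m => (m : ℂ) * z ^ e) = c'.sum (fun z m => (m : ℂ) * z ^ e)) :
    c = c' := by
  classical
  set F := c.support ∪ c'.support with hF
  have e1 : ∀ e : ℕ, c.sum (fun z m => (m : ℂ) * z ^ e) = ∑ z ∈ F, (c z : ℂ) * z ^ e := fun e =>
    Finsupp.sum_of_support_subset c Finset.subset_union_left _ (fun _ _ => by simp)
  have e2 : ∀ e : ℕ, c'.sum (fun z m => (m : ℂ) * z ^ e) = ∑ z ∈ F, (c' z : ℂ) * z ^ e := fun e =>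
    Finsupp.sum_of_support_subset c' Finset.subset_union_right _ (fun _ _ => by simp)
  have h1 : ∀ e : ℕ, ∑ z ∈ F, (((c z : ℂ) - (c' z : ℂ)) * z) * z ^ e = 0 := by
    intro e
    have h2 := h (e + 1) (by omega)
    rw [e1, e2, ← sub_eq_zero, ← Finset.sum_sub_distrib] at h2
    rw [← h2]
    exact Finset.sum_congr rfl fun z _ => by ring
  have h3 := coeff_zero_of_powers h1
  ext z
  by_cases hz : z ∈ F
  · have hz0 : z ≠ 0 := by
      rintro rfl
      rcases Finset.mem_union.1 hz with h4 | h4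
      · exact h0 h4
      · exact h0' h4
    have h5 := (mul_eq_zero.1 (h3 z hz)).resolve_right hz0
    exact_mod_cast sub_eq_zero.1 h5
  · have h4 : z ∉ c.support := fun h5 => hz (Finset.mem_union_left _ h5)
    have h5 : z ∉ c'.support := fun h6 => hz (Finset.mem_union_right _ h6)
    rw [Finsupp.notMem_support_iff.1 h4, Finsupp.notMem_support_iff.1 h5]

/-- the same, with the hypotheses in another form -/
theorem ps_unique {c c2 : ℂ →₀ ℤ} (h : ∀ z ∈ c.support, z ≠ 0) (h2 : ∀ z ∈ c2.support, z ≠ 0)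
    (e : ∀ e : ℕ, 0 < e →
      c.sum (fun z m => (m : ℂ) * z ^ e) = c2.sum (fun z m => (m : ℂ) * z ^ e)) : c = c2 :=
  eq_of_powerSums (fun h0 => h 0 h0 rfl) (fun h0 => h2 0 h0 rfl) fun i hi => e i hi

lemma zero_notMem {v : HeightOneSpectrum (𝓞 K)} {c : ℂ →₀ ℤ} (h : HasWeights (nv v) c) :
    (0 : ℂ) ∉ c.support := by
  intro h0
  obtain ⟨w, hw⟩ := h 0 h0
  have hpos : (0 : ℝ) < nv v := by
    have := Pool.Agent.H691R3.two_le_nm v
    have h2 : 0 < nv v := by
      show 0 < Pool.Agent.H691R3.nm v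
      omega
    exact_mod_cast h2
  rw [norm_zero] at hw
  exact (Real.rpow_pos_of_pos hpos _).ne hw

/-- **Uniqueness of the Frobenius divisor.** -/
theorem divisor_unique {M : ℕ} {F : MvPolynomial (Fin M) (𝓞 K)}
    {v : HeightOneSpectrum (𝓞 K)} {c c' : ℂ →₀ ℤ} (h : IsDivisorOne F v c)
    (h' : IsDivisorOne F v c') : c = c' := by
  refine eq_of_powerSums (zero_notMem h.1) (zero_notMem h'.1) fun e he => ?_
  obtain ⟨κ, i1, i2, φ, hk, hc⟩ := exists_ext v he
  rw [← h.2 κ φ e hk hc, ← h'.2 κ φ e hk hc]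

end Pool.Agent.V8H25.CU
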